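import Pool.Agent.helper47.T1.SpecE4
import Pool.Agent.helper47.HF.PVG

/-!
# MP_07c750, project T1: row `t1:QPV`, the effective main estimate for general cutoffs
-/

set_option autoImplicit false

open scoped MatrixGroups ContDiff Topology UpperHalfPlane ComplexConjugate
open UpperHalfPlane MeasureTheory Filter Set

namespace Pool.Agent.T1

open Pool.Agent.RS Pool.Agent.MS Pool.Agent.HV

/-- small powers -/
theorem QPV_thr (A a : ℝ) (ha : 0 < a) : ∃ R : ℝ, 1 ≤ R ∧ ∀ r : ℝ, R ≤ r → A ≤ r ^ a := by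
  have h := (tendsto_rpow_atTop ha).eventually (eventually_ge_atTop A)
  obtain ⟨R, hR⟩ := Filter.eventually_atTop.1 h
  exact ⟨max R 1, le_max_right _ _, fun r hr => hR r (le_trans (le_max_left _ _) hr)⟩

/-- `K log r / r` is at most `r^(-1/2)` for large `r` -/
theorem QPV_log (K : ℝ) : ∃ R : ℝ, 1 ≤ R ∧ ∀ r : ℝ, R ≤ r → K * (Real.log r / r) ≤ r ^ (-(1 / 2) : ℝ) := by
  obtain ⟨R, hR1, hR⟩ := QPV_thr (4 * |K|) (1 / 4) (by norm_num)
  refine ⟨R, hR1, ?_⟩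
  intro r hr
  have hr1 : 1 ≤ r := hR1.trans hr
  have hr0 : 0 < r := by linarith
  have h1 : Real.log r ≤ 4 * r ^ (1 / 4 : ℝ) := by
    have h2 := Real.log_le_rpow_div hr0.le (show (0 : ℝ) < 1 / 4 by norm_num)
    calc Real.log r ≤ r ^ (1 / 4 : ℝ) / (1 / 4) := h2
      _ = 4 * r ^ (1 / 4 : ℝ) := by ring
  have h3 := hR r hr
  have h4 : K * (Real.log r / r) ≤ |K| * (4 * r ^ (1 / 4 : ℝ) / r) := by
    have h5 : 0 ≤ Real.log r / r := div_nonneg (Real.log_nonneg hr1) hr0.le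
    calc K * (Real.log r / r) ≤ |K| * (Real.log r / r) := mul_le_mul_of_nonneg_right (le_abs_self K) h5
      _ ≤ _ := mul_le_mul_of_nonneg_left (div_le_div_of_nonneg_right h1 hr0.le) (abs_nonneg _)
  refine h4.trans ?_
  have h6 : |K| * (4 * r ^ (1 / 4 : ℝ) / r) = (4 * |K|) * (r ^ (1 / 4 : ℝ) / r) := by ring
  rw [h6]
  have h7 : 0 ≤ r ^ (1 / 4 : ℝ) / r := div_nonneg (Real.rpow_nonneg hr0.le _) hr0.le
  refine (mul_le_mul_of_nonneg_right h3 h7).trans (le_of_eq ?_)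
  have h8 : r ^ (1 / 4 : ℝ) / r = r ^ (1 / 4 - 1 : ℝ) := by
    rw [Real.rpow_sub hr0, Real.rpow_one]
  rw [h8, ← Real.rpow_add hr0]
  norm_num

/-- Row QPV. -/
theorem QPV_proof (hQOP : QOP_stmt) (hQFA : QFA_stmt) (hQFB : QFB_stmt) (hQST : QST_stmt) (hSTB : MS.STB_stmt) (hINW : MS.INW_stmt) (hAS4 : AS4_stmt)
    (hCV1 : RS.CV1_stmt) (hFL0 : RS.FL0_stmt) (hGFD : RS.GFD_stmt) (hGBD : RS.GBD_stmt) (hGLC : RS.GLC_stmt) :
    QPV_stmt := by
  classical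
  intro β α hβ hα
  obtain ⟨-, -, -, hst, hmono, -⟩ := hSTB
  have hα4 : BA (1 / 4) α := (hmono (1 / 8) (1 / 4) α (by norm_num)).2.1 hα
  obtain ⟨Mb, hMb1, hMb⟩ := hQST.2.2 4 β hβ.1
  obtain ⟨Ma, hMa1, hMa⟩ := hQST.2.2 4 α hα4.1
  have hmn : ∀ (f : ℝ → ℝ) (M M' : ℝ), M ≤ M' → SBM 4 M f → SBM 4 M' f := fun f M M' h hf => ⟨hf.sb, fun j hj x => (hf.bd j hj x).trans h⟩
  set M : ℝ := max Mb Ma with hMd
  have hMβ : SBM 4 M β := hmn β Mb M (le_max_left _ _) hMb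
  have hMα : SBM 4 M α := hmn α Ma M (le_max_right _ _) hMa
  obtain ⟨KA, κA, hKA, hκA0, hκA1, hA⟩ := hQFA M
  obtain ⟨KB, κB, hKB, hκB0, hκB1, hB⟩ := hQFB M
  obtain ⟨KO, κO, hKO, hκO0, hκO1, hO⟩ := hQOP β α hβ hα4
  set κ : ℝ := min κA (min κB κO) / 3 with hκd
  have hm0 : 0 < min κA (min κB κO) := lt_min hκA0 (lt_min hκB0 hκO0)
  have hκ0 : 0 < κ := by
    rw [hκd]
    positivity
  have hκA : 3 * κ ≤ κA := by
    rw [hκd]
    have := min_le_left κA (min κB κO)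
    linarith
  have hκB : 3 * κ ≤ κB := by
    rw [hκd]
    have := (min_le_right κA (min κB κO)).trans (min_le_left _ _)
    linarith
  have hκO : 3 * κ ≤ κO := by
    rw [hκd]
    have := (min_le_right κA (min κB κO)).trans (min_le_right _ _)
    linarith
  have hκ8 : κ ≤ 1 / 24 := by linarith
  refine ⟨κ, hκ0, by linarith, ?_⟩
  intro Γ F hΓ hF
  obtain ⟨K, rI, hK, hrI, hI⟩ := hINW Γ F β α hΓ hF hβ hα4
  obtain ⟨R1, hR11, hR1⟩ := QPV_log K
  obtain ⟨R2, hR21, hR2⟩ := QPV_thr 2 κ hκ0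
  have hK0 : 0 < K := by linarith
  refine ⟨max K (max rI (max KA (max KB (max KO (max R1 (max R2 1)))))), hK.trans (le_max_left _ _), ?_⟩
  set KK : ℝ := max K (max rI (max KA (max KB (max KO (max R1 (max R2 1)))))) with hKK
  have hKKK : K ≤ KK := le_max_left _ _
  intro r δ Bn Bl Bn' Bl' n' s lam Q t J0 Ψ Ψa Ψn Ψl Ψ' Ψa' Ψn' Ψl' Dp φ hr hδr hδ hn0 hs0 hTs1 hlam1 hlam2 hQ0 hQ hJ0 hJ1
    hBn hBl hBn' hBl' hst1 ht2 hSF hΨ1 hΨn hΨl hSF' hΨ1' hΨn' hΨl' hDp hDpi hloc hleaf hφ hnφ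
  have hrI' : rI ≤ r := le_trans (le_trans (le_max_left _ _) (le_max_right _ _)) hr
  have hr2 : max KA (max KB (max KO (max R1 (max R2 1)))) ≤ r := le_trans (le_trans (le_max_right _ _) (le_max_right _ _)) hr
  have hrA : KA ≤ r := le_trans (le_max_left _ _) hr2
  have hr3 : max KB (max KO (max R1 (max R2 1))) ≤ r := le_trans (le_max_right _ _) hr2
  have hrB : KB ≤ r := le_trans (le_max_left _ _) hr3
  have hr4 : max KO (max R1 (max R2 1)) ≤ r := le_trans (le_max_right _ _) hr3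
  have hrO : KO ≤ r := le_trans (le_max_left _ _) hr4
  have hr5 : max R1 (max R2 1) ≤ r := le_trans (le_max_right _ _) hr4
  have hrR1 : R1 ≤ r := le_trans (le_max_left _ _) hr5
  have hr6 : max R2 1 ≤ r := le_trans (le_max_right _ _) hr5
  have hrR2 : R2 ≤ r := le_trans (le_max_left _ _) hr6
  have hr1 : 1 ≤ r := le_trans (le_max_right _ _) hr6
  have hr0 : 0 < r := by linarith
  have hlog0 : 0 ≤ Real.log r := Real.log_nonneg hr1
  have hlam0 : 0 < lam := by linarith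
  -- powers
  have hpk0 : 0 < r ^ (-κ) := Real.rpow_pos_of_pos hr0 _
  have hδ0 : 0 < δ := lt_of_lt_of_le hpk0 hδr
  have hpw : ∀ a : ℝ, κ ≤ a → r ^ (-a) ≤ r ^ (-κ) := fun a ha => Real.rpow_le_rpow_of_exponent_le hr1 (by linarith)
  have hp3 : r ^ (-(3 * κ)) ≤ δ ^ 2 / 2 := by
    have h1 : r ^ (-(3 * κ)) = r ^ (-κ) * (r ^ (-κ) * r ^ (-κ)) := by
      rw [← Real.rpow_add hr0, ← Real.rpow_add hr0]
      congr 1
      ring
    have h2 : r ^ (-κ) ≤ 1 / 2 := by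
      rw [Real.rpow_neg hr0.le]
      have h3 := hR2 r hrR2
      rw [inv_le_comm₀ (Real.rpow_pos_of_pos hr0 _) (by norm_num)]
      norm_num
      exact h3
    rw [h1]
    have h4 : r ^ (-κ) * r ^ (-κ) ≤ δ * δ := mul_le_mul hδr hδr hpk0.le hδ0.le
    have h5 : r ^ (-κ) * (r ^ (-κ) * r ^ (-κ)) ≤ 1 / 2 * (δ * δ) := mul_le_mul h2 h4 (by positivity) (by norm_num)
    nlinarith [h5]
  have hκle : ∀ a : ℝ, 3 * κ ≤ a → r ^ (-a) ≤ δ := by
    intro a ha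
    exact (hpw a (by linarith)).trans hδr
  set T : ℝ := n' + s with hT
  have hT0 : 0 ≤ T := by linarith
  have hTA : T ≤ κA * Real.log r := hTs1.trans (mul_le_mul_of_nonneg_right (by linarith) hlog0)
  have hTB : T ≤ κB * Real.log r := hTs1.trans (mul_le_mul_of_nonneg_right (by linarith) hlog0)
  have hTO : T ≤ κO * Real.log r := hTs1.trans (mul_le_mul_of_nonneg_right (by linarith) hlog0)
  set ε : ℝ := Real.pi / (4 * lam) with hεd
  have hπ3 : (3 : ℝ) < Real.pi := Real.pi_gt_three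
  have hε0 : 0 < ε := by
    rw [hεd]
    positivity
  have hε1 : ε ≤ 1 := by
    rw [hεd, div_le_one (by positivity)]
    have := Real.pi_le_four
    linarith
  have hεr : r ^ (-κO) ≤ ε := by
    have h1 : r ^ (-κO) ≤ r ^ (-(2 * κ)) := Real.rpow_le_rpow_of_exponent_le hr1 (by linarith)
    have h2 : r ^ (-(2 * κ)) = (r ^ κ)⁻¹ * (r ^ κ)⁻¹ := by
      rw [← Real.rpow_neg hr0.le, ← Real.rpow_add hr0]
      congr 1
      ring
    have h3 : (r ^ κ)⁻¹ ≤ 1 / 2 := by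
      have h3 := hR2 r hrR2
      rw [inv_le_comm₀ (Real.rpow_pos_of_pos hr0 _) (by norm_num)]
      norm_num
      exact h3
    have h4 : (r ^ κ)⁻¹ ≤ lam⁻¹ := inv_anti₀ hlam0 hlam2
    have h5 : (r ^ κ)⁻¹ * (r ^ κ)⁻¹ ≤ 1 / 2 * lam⁻¹ := mul_le_mul h3 h4 (by positivity) (by norm_num)
    have h6 : 1 / 2 * lam⁻¹ ≤ ε := by
      rw [hεd]
      have h7 : Real.pi / (4 * lam) = Real.pi / 4 * lam⁻¹ := by
        field_simp
      rw [h7]
      exact mul_le_mul_of_nonneg_right (by linarith) (by positivity)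
    linarith
  have hBst : BB (1 / 4) (st (-T) β) := by
    have h1 := hst (1 / 4) (-T) β hβ
    refine (hmono _ (1 / 4) _ ?_).2.2 h1
    have h2 : Real.exp (-T) ≤ 1 := Real.exp_le_one_iff.2 (by linarith)
    nlinarith
  have hst0 : st (-0) β = β := by
    funext x
    simp [st]
  obtain ⟨hf1, hf2⟩ := hA β α hMβ hMα hβ hα4 Γ F r 0 hΓ hF hrA le_rfl (by positivity)
  rw [hst0] at hf1 hf2
  obtain ⟨hf1', -⟩ := hA β α hMβ hMα hβ hα4 Γ F r T hΓ hF hrA hT0 hTA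
  have hnnn : ∀ u : ℍ → ℂ, 0 ≤ nn F u := fun u => integral_nonneg fun z => sq_nonneg _
  have hf1d : ∀ u : ℍ → ℂ, InvC Γ u → r * qn F (pc β α) r u ≤ (1 + δ) * nn F u := fun u hu =>
    (hf1 u hu).trans (mul_le_mul_of_nonneg_right (by linarith [hκle κA hκA]) (hnnn u))
  have hf1d' : ∀ u : ℍ → ℂ, InvC Γ u → r * qn F (pc (st (-T) β) α) r u ≤ (1 + δ) * nn F u := fun u hu =>
    (hf1' u hu).trans (mul_le_mul_of_nonneg_right (by linarith [hκle κA hκA]) (hnnn u))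
  obtain ⟨-, hE4a⟩ := hB β α α hMβ hMα hMα hβ Γ F r T φ hΓ hF hrB hT0 hTB hφ
  have hE4 := (hE4a hα hα).2
  have hΨ0c : Continuous Ψ := hSF.i0.1
  have hDc : Continuous fun g : SL(2, ℝ) => Ψ' (g * aM (-n')) := hSF'.i0.1.comp (continuous_mul_const _)
  have hOP := hO Γ F r T ε Q J0 {g | Ψ g ≠ 0} {g | Ψ' (g * aM (-n')) ≠ 0} Dp hΓ hF hrO hT0 hTO hεr hε1 hJ0 hJ1 hQ0
    (isOpen_ne_fun hΨ0c continuous_const).measurableSet hDp
    (fun γ g => by
      show Ψ ((γ : SL(2, ℝ)) * g) ≠ 0 ↔ Ψ g ≠ 0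
      rw [hSF.i0.2])
    hDpi hloc hleaf
  set X : ℝ := r / lam with hX
  have hX0 : 0 < X := by positivity
  set t1 : ℝ := Real.log X with ht1d
  have hexp : Real.exp t1 = X := Real.exp_log hX0
  have ht1' : t1 = Real.log r - Real.log lam := Real.log_div hr0.ne' hlam0.ne'
  have hlogL : 0 ≤ Real.log lam := Real.log_nonneg hlam1
  have ht0 : 0 ≤ t := hs0.trans hst1
  have hKlog : ∀ t2 : ℝ, t2 ≤ Real.log r → K * (t2 / r) ≤ δ := by
    intro t2 ht2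
    refine le_trans ?_ (le_trans (hR1 r hrR1) (le_trans (hpw (1 / 2) (by linarith)) hδr))
    exact mul_le_mul_of_nonneg_left (div_le_div_of_nonneg_right ht2 hr0.le) hK0.le
  have hBn0 : 0 ≤ Bn := (abs_nonneg _).trans (hΨn 1)
  have hBl0 : 0 ≤ Bl := (abs_nonneg _).trans (hΨl 1)
  have hBn0' : 0 ≤ Bn' := (abs_nonneg _).trans (hΨn' 1)
  have hBl0' : 0 ≤ Bl' := (abs_nonneg _).trans (hΨl' 1)
  -- (1)
  have hinv := hI r φ hrI' hφ Ψ Ψa Ψn Ψl Bn Bl hSF (fun g => by rw [abs_of_nonneg (hΨ1 g).1]; exact (hΨ1 g).2)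
    hΨn hΨl t t1 ht0 ht2
  have herr : K * (Bn * Real.exp (-t) + (t1 + Bl * Real.exp t1) / r) * nn F φ ≤ 3 * δ := by
    rw [hnφ, mul_one, hexp]
    have h2 : K * (Bn * Real.exp (-t)) ≤ δ := by
      refine le_trans ?_ hBn
      rw [mul_assoc]
      exact mul_le_mul_of_nonneg_right hKKK (mul_nonneg hBn0 (Real.exp_pos _).le)
    have h3 : K * (t1 / r) ≤ δ := hKlog t1 (by linarith)
    have h4 : K * (Bl * X / r) ≤ δ := by
      have e1 : K * (Bl * X / r) = K * Bl / lam := by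
        rw [hX]
        field_simp
      rw [e1, div_le_iff₀ hlam0]
      exact le_trans (mul_le_mul_of_nonneg_right hKKK hBl0) hBl
    have h5 : K * (Bn * Real.exp (-t) + (t1 + Bl * X) / r) = K * (Bn * Real.exp (-t)) + K * (t1 / r) + K * (Bl * X / r) := by
      rw [add_div]
      ring
    rw [h5]
    linarith
  -- (2)
  have hinv' := hI r φ hrI' hφ Ψ' Ψa' Ψn' Ψl' Bn' Bl' hSF' (fun g => by rw [abs_of_nonneg (hΨ1' g).1]; exact (hΨ1' g).2)
    hΨn' hΨl' s t hs0 hst1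
  have herr' : K * (Bn' * Real.exp (-s) + (t + Bl' * Real.exp t) / r) * nn F φ ≤ 3 * δ := by
    rw [hnφ, mul_one]
    have h2 : K * (Bn' * Real.exp (-s)) ≤ δ := by
      refine le_trans ?_ hBn'
      rw [mul_assoc]
      exact mul_le_mul_of_nonneg_right hKKK (mul_nonneg hBn0' (Real.exp_pos _).le)
    have h3 : K * (t / r) ≤ δ := hKlog t (by linarith)
    have h4 : K * (Bl' * Real.exp t / r) ≤ δ := by
      have e1 : K * (Bl' * Real.exp t / r) = K * Bl' * Real.exp t / r := by ring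
      rw [e1, div_le_iff₀ hr0]
      refine le_trans ?_ hBl'
      exact mul_le_mul_of_nonneg_right (mul_le_mul_of_nonneg_right hKKK hBl0') (Real.exp_pos _).le
    have h5 : K * (Bn' * Real.exp (-s) + (t + Bl' * Real.exp t) / r) = K * (Bn' * Real.exp (-s)) + K * (t / r) + K * (Bl' * Real.exp t / r) := by
      rw [add_div]
      ring
    rw [h5]
    linarith
  have haM : ∀ s t, aM (s + t) = aM s * aM t := hGLC.2.2.2.2.2.2.2.2.2.2.1
  have hE4' := hE4 (fun g => Ψ' (g * aM s))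
    (hSF'.i0.1.comp (continuous_mul_const _)).measurable
    (fun g => by rw [abs_of_nonneg (hΨ1' _).1]; exact (hΨ1' _).2)
    (fun γ g => by
      show Ψ' ((γ : SL(2, ℝ)) * g * aM s) = Ψ' (g * aM s)
      rw [mul_assoc, hSF'.i0.2])
  have hTs : ∀ g : SL(2, ℝ), g * aM (-T) * aM s = g * aM (-n') := by
    intro g
    rw [mul_assoc, ← haM]
    congr 2
    rw [hT]
    ring
  simp only [hTs] at hE4'
  rw [hnφ, mul_one] at hE4'
  have hE4d := hE4'.trans (hκle κB hκB)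
  have hc1 : TB (1 / 4) (pc β α) := (hCV1.2.2 (1 / 4) α β hα4.1 hβ.1).1
  have hc2 : TB (1 / 4) (pc (st (-T) β) α) := (hCV1.2.2 (1 / 4) α (st (-T) β) hα4.1 hBst.1).1
  have hqq := hf2 φ hφ
  rw [hnφ, mul_one] at hqq
  have hqqd : |r * qn F (pc β α) r φ - 1| ≤ δ := hqq.trans (hκle κA hκA)
  have hlogt : Real.log (4 * ε * r / Real.pi) = t1 := by
    rw [ht1d, hX, hεd]
    congr 1
    have hpi : Real.pi ≠ 0 := Real.pi_ne_zero
    field_simp
  have hQQ : 64 * Q + r ^ (-κO) ≤ δ ^ 2 := by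
    have h1 : r ^ (-κO) ≤ r ^ (-(3 * κ)) := Real.rpow_le_rpow_of_exponent_le hr1 (by linarith)
    linarith
  have core := PVG_core hAS4 hFL0 hGFD hGBD Γ F hΓ hF (pc β α) (pc (st (-T) β) α) hc1 hc2 r δ t1 (64 * Q + r ^ (-κO)) φ hr0 hδ0 hδ hφ hnφ
    hf1d hf1d' hqqd Ψ hSF.i0 {g : SL(2, ℝ) | Ψ' (g * aM (-n')) ≠ 0} (isOpen_ne_fun hDc continuous_const).measurableSet
    (fun γ g => by
      show Ψ' ((γ : SL(2, ℝ)) * g * aM (-n')) ≠ 0 ↔ Ψ' (g * aM (-n')) ≠ 0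
      rw [mul_assoc, hSF'.i0.2])
    (by positivity) hQQ (fun w hw1 hw2 hw3 hw4 => by
      have h1 := hOP w hw1 hw2 hw3 hw4
      rw [hlogt] at h1
      exact h1)
  have h1 := MS2_le hFL0 hGFD hGBD Γ F hΓ hF (pc β α) hc1 r φ hφ Ψ hSF.i0 hΨ1 t1
  have h2 := MS2_le hFL0 hGFD hGBD Γ F hΓ hF (pc (st (-T) β) α) hc2 r φ hφ Ψ' hSF'.i0 hΨ1' (-n')
  have g1 := mul_le_mul_of_nonneg_left h1 hr0.le
  have g2 := mul_le_mul_of_nonneg_left h2 hr0.le
  have g4 := abs_le.1 (hinv.trans herr)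
  have g5 := abs_le.1 (hinv'.trans herr')
  have g6 := abs_le.1 hE4d
  simp only [pf] at g4 g5 g6 ⊢
  linarith [g1, g2, g4.1, g5.2, g6.1, core]

end Pool.Agent.T1
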