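import Pool.Agent.helper47.T1.SpecE1
import Pool.Agent.helper62.HF.SpecW

/-!
# MP_07c750, project T1, block E, part E4: the EFFECTIVE main estimate for general cutoffs (`QPV`), and the effective operator bound (`QOP`) which it uses

All constants `κ` depend only on the profiles; the thresholds `K` of `QPV` may depend on the surface (through `MS.INW`).
NOTATION: RS, MS, HV (`helper62/HF/SpecV.lean`, `SpecW.lean`).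
-/

set_option autoImplicit false

open scoped MatrixGroups ContDiff Topology UpperHalfPlane ComplexConjugate
open UpperHalfPlane MeasureTheory Filter Set

namespace Pool.Agent.T1

open Pool.Agent.RS Pool.Agent.MS Pool.Agent.HV

noncomputable section

/-- **Row QOP** (effective OPB; part E3). The same hypotheses and conclusion as `HV.OPB_stmt` with `0 ≤ T ≤ κ log r`, `ε, Q` and the sets depending on `r`, `ε ≥ r^(-κ)`, `δ1 = r^(-1/4)`, `l0 = r^(-1/2)` and the error `r^(-κ)`. -/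
def QOP_stmt : Prop := ∀ β α : ℝ → ℝ, BB (1 / 4) β → BA (1 / 4) α → ∃ K κ : ℝ, 1 ≤ K ∧ 0 < κ ∧ κ ≤ 1 / 8 ∧ ∀ (Γ : Subgroup SL(2, ℝ)) (F : Set ℍ) (r T ε Q : ℝ) (J0 : ℕ) (B1 D Dp : Set SL(2, ℝ)), QU.SurfaceGroup Γ → QU.NiceDom Γ F →
  K ≤ r → 0 ≤ T → T ≤ κ * Real.log r → r ^ (-κ) ≤ ε → ε ≤ 1 → 1 / 4 ≤ J0 * ε → J0 * ε ≤ 2 → 0 ≤ Q →
  MeasurableSet B1 → MeasurableSet Dp → (∀ (γ : Γ) (g : SL(2, ℝ)), (γ : SL(2, ℝ)) * g ∈ B1 ↔ g ∈ B1) → (∀ (γ : Γ) (g : SL(2, ℝ)), (γ : SL(2, ℝ)) * g ∈ Dp ↔ g ∈ Dp) →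
  (∀ (j : ℤ) (g k : SL(2, ℝ)) (w : ℍ), |j| ≤ (J0 : ℤ) → |k.1 1 0| ≤ r ^ (-(1 / 4) : ℝ) → |w.re| ≤ Real.exp (-T) / 4 → |Real.log w.im| ≤ 1 / 4 → |(k • w).re - j * ε| ≤ ε → |Real.log (k • w).im| ≤ 1 / 4 → g * k ∈ D → g * nM (j * ε) ∈ Dp) →
  (∀ (l : ℝ) (g g' : SL(2, ℝ)) (J : Finset ℤ) (a : ℤ → ℂ), 0 ≤ l → l ≤ r ^ (-(1 / 2) : ℝ) → (∀ j ∈ J, |j| ≤ (J0 : ℤ) ∧ ∃ u ∈ Icc (0 : ℝ) 1, g * lM (l * u) * nM (j * ε) ∈ Dp) →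
    ∫ v in Icc (0 : ℝ) 1 ∩ {v | g' * lM v ∈ B1}, ‖∑ j ∈ J, a j * Complex.exp (((Real.pi * j * v / 2 : ℝ) : ℂ) * Complex.I)‖ ^ 2 ≤ Q * ∑ j ∈ J, ‖a j‖ ^ 2) →
  ∀ s : SL(2, ℝ) → ℂ, Measurable s → (∃ m : ℝ, ∀ g, ‖s g‖ ≤ m) → (∀ (γ : Γ) g, s ((γ : SL(2, ℝ)) * g) = s g) → (∀ g, s g ≠ 0 → g ∈ D) →
    r ^ 2 * ∫ g in dG F ∩ {g | g * aM (Real.log (4 * ε * r / Real.pi)) ∈ B1}, ‖Wf (pk r (pc β α)) (sy Γ F (fun z => conj (pk r (pc (st (-T) β) α) z)) s) g‖ ^ 2 ∂mG ≤ (64 * Q + r ^ (-κ)) * iR F (fun g => ‖s g‖ ^ 2)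

/-- **Row QPV** (effective PVG; from QOP, QFA, QFB, QST, HV.AS4, MS.INW; adapt `helper47/HF/PVG.lean`). `T = n' + s`, `ε = π/(4 lam)`, `t1 = log (r/lam)`, `B1 = {Ψ ≠ 0}`, `D = {g | Ψ' (g a_(-n')) ≠ 0}`. -/
def QPV_stmt : Prop := ∀ β α : ℝ → ℝ, BB (1 / 4) β → BA (1 / 8) α → ∃ κ : ℝ, 0 < κ ∧ κ ≤ 1 / 8 ∧ ∀ (Γ : Subgroup SL(2, ℝ)) (F : Set ℍ), QU.SurfaceGroup Γ → QU.NiceDom Γ F → ∃ K : ℝ, 1 ≤ K ∧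
  ∀ (r δ Bn Bl Bn' Bl' n' s lam Q t : ℝ) (J0 : ℕ) (Ψ Ψa Ψn Ψl Ψ' Ψa' Ψn' Ψl' : SL(2, ℝ) → ℝ) (Dp : Set SL(2, ℝ)) (φ : ℍ → ℂ), K ≤ r → r ^ (-κ) ≤ δ → δ ≤ 1 / 100 →
    0 ≤ n' → 0 ≤ s → n' + s ≤ κ * Real.log r → 1 ≤ lam → lam ≤ r ^ κ → 0 ≤ Q → 128 * Q ≤ δ ^ 2 → 1 / 4 ≤ J0 * (Real.pi / (4 * lam)) → J0 * (Real.pi / (4 * lam)) ≤ 2 →
    K * Bn * Real.exp (-t) ≤ δ → K * Bl ≤ δ * lam → K * Bn' * Real.exp (-s) ≤ δ → K * Bl' * Real.exp t ≤ δ * r → s ≤ t → t ≤ Real.log (r / lam) →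
    SF Γ Ψ Ψa Ψn Ψl → (∀ g, 0 ≤ Ψ g ∧ Ψ g ≤ 1) → (∀ g, |Ψn g| ≤ Bn) → (∀ g, |Ψl g| ≤ Bl) →
    SF Γ Ψ' Ψa' Ψn' Ψl' → (∀ g, 0 ≤ Ψ' g ∧ Ψ' g ≤ 1) → (∀ g, |Ψn' g| ≤ Bn') → (∀ g, |Ψl' g| ≤ Bl') →
    MeasurableSet Dp → (∀ (γ : Γ) (g : SL(2, ℝ)), (γ : SL(2, ℝ)) * g ∈ Dp ↔ g ∈ Dp) →
    (∀ (j : ℤ) (g k : SL(2, ℝ)) (w : ℍ), |j| ≤ (J0 : ℤ) → |k.1 1 0| ≤ r ^ (-(1 / 4) : ℝ) → |w.re| ≤ Real.exp (-(n' + s)) / 4 → |Real.log w.im| ≤ 1 / 4 → |(k • w).re - j * (Real.pi / (4 * lam))| ≤ Real.pi / (4 * lam) → |Real.log (k • w).im| ≤ 1 / 4 →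
      Ψ' (g * k * aM (-n')) ≠ 0 → g * nM (j * (Real.pi / (4 * lam))) ∈ Dp) →
    (∀ (l : ℝ) (g g' : SL(2, ℝ)) (J : Finset ℤ) (a : ℤ → ℂ), 0 ≤ l → l ≤ r ^ (-(1 / 2) : ℝ) → (∀ j ∈ J, |j| ≤ (J0 : ℤ) ∧ ∃ u ∈ Icc (0 : ℝ) 1, g * lM (l * u) * nM (j * (Real.pi / (4 * lam))) ∈ Dp) →
      ∫ v in Icc (0 : ℝ) 1 ∩ {v | Ψ (g' * lM v) ≠ 0}, ‖∑ j ∈ J, a j * Complex.exp (((Real.pi * j * v / 2 : ℝ) : ℂ) * Complex.I)‖ ^ 2 ≤ Q * ∑ j ∈ J, ‖a j‖ ^ 2) →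
    EigL Γ (1 / 4 + r ^ 2) φ → nn F φ = 1 →
      r * iR F (fun g => Ψ (g * aM t) * ‖pf β α r φ g‖ ^ 2) + r * iR F (fun g => Ψ' (g * aM t) * ‖pf β α r φ g‖ ^ 2) ≤ 1 + 20 * δ

end

end Pool.Agent.T1
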