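import Pool.Agent.helper62.MS.SpecA

/-!
# MP_07c750, project T1 (helper52: entropy `≥ 1/2 + c` on every closed hyperbolic surface), block E, parts E1 and E2: EFFECTIVE packets, rows `t1:QXX`

The rows of RS / MS (BK1 - BK5, TRV, EF1, NM3, FRB, EQ1, EQ3, EQ4) are proved with non explicit constants. Here: the constants are polynomials in bounds `M` of finitely many derivatives of the profiles, and all errors are powers of `r`. Every row is a small change of a proved file (named in its docstring), which in most cases computes the constant explicitly.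
NOTATION: RS (`helper29/RS/SpecK.lean`): `SB`, `CB`, `bI`, `bk`, `bF`, `hF`, `pr`, `pc`, `pk`, `qn`, `nn`, `Wf`, `iR`; MS (`helper62/MS/SpecA.lean`): `BA`, `BB`, `st`, `pf`.

RULES. Row `t1:QXX` (problem MP_07c750_an): file `Pool/Agent/<seat>/T1/QXX.lean`, `import Pool.Agent.helper47.T1.SpecE1` and the proved files which you use (`Pool.Agent.helper62.RS.All` gives `RS.A_BK3`, `RS.A_GR2`, ..), `set_option autoImplicit false`, namespace `Pool.Agent.T1`, auxiliary lemmas prefixed `QXX_`, theorem `QXX_proof (h : QYY_stmt) .. : QXX_stmt`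
(rows of RS and MS may be used as hypotheses `(h : RS.GR2_stmt)` or as theorems `RS.A_GR2`). No `convert`, `congr!`, `native_decide`, no double quotes, no `private`.
-/

set_option autoImplicit false

open scoped MatrixGroups ContDiff Topology UpperHalfPlane ComplexConjugate
open UpperHalfPlane MeasureTheory Filter Set

namespace Pool.Agent.T1

open Pool.Agent.RS Pool.Agent.MS

noncomputable section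

/-- smooth functions of `(x, τ)` supported in `|x|, |τ| ≤ 1/4`, with bounds of the first derivatives -/
structure CBM (M : ℝ) (C : ℝ → ℝ → ℂ) : Prop where
  cb : CB C
  b0 : ∀ x τ, ‖C x τ‖ ≤ M
  bx : ∀ τ x, ‖deriv (fun x => C x τ) x‖ ≤ M
  bt : ∀ x τ, ‖deriv (fun τ => C x τ) τ‖ ≤ M

/-- smooth functions on the line supported in `[-1/4, 1/4]`, with bounds of the derivatives up to the order `J` -/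
structure SBM (J : ℕ) (M : ℝ) (β : ℝ → ℝ) : Prop where
  sb : SB (1 / 4) β
  bd : ∀ j ≤ J, ∀ x, |iteratedDeriv j β x| ≤ M

/-! ## 1. Boundary integrals -/

/-- **Row QB1** (short; adapt `helper65/RS/BKA.lean`, `BKB.lean`, `BK1.lean`). The files prove `r |bI| ≤ 12 M`, `|t| |bI| ≤ M/2` for `|t| ≥ 4` and `r |bI| ≤ 5100 M` for `|t| ≤ 4`, where `M` is any bound of `C`, `∂_x C`, `∂_τ C` (obtained there from `BKG_M`; here from `CBM`; `ContDiff ℝ 1` of the restrictions: as in `BKG_M`). -/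
def QB1_stmt : Prop := ∃ K : ℝ, 1 ≤ K ∧ ∀ (C : ℝ → ℝ → ℂ) (M : ℝ), CBM M C → ∀ r s t : ℝ, 1 ≤ r → |s - r| ≤ r / 100 → max r |t| * ‖bI C r s t‖ ≤ K * M

/-- **Row QB3** (short; from QB1; adapt `helper65/RS/BK3.lean`: lemmas `BK3_meas`, `BK3_bd`, `BK3_scale`). -/
def QB3_stmt : Prop := ∃ K : ℝ, 1 ≤ K ∧ ∀ (C : ℝ → ℝ → ℂ) (M : ℝ), CBM M C → ∀ r s : ℝ, 1 ≤ r → |s - r| ≤ r / 100 →
  Integrable (fun t => ‖bI C r s t‖ ^ 2) ∧ Integrable (fun v : ℝ => (r * ‖bI C r s (r * v)‖) ^ 2) ∧ (∀ v : ℝ, (r * ‖bI C r s (r * v)‖) ^ 2 ≤ K * M ^ 2 * (1 + v ^ 2)⁻¹) ∧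
  r * bk C r s = (1 / Real.pi) * ∫ v : ℝ, (r * ‖bI C r s (r * v)‖) ^ 2 ∧ r * bk C r s ≤ K * M ^ 2

/-- **Row QB2** (the pointwise limit with an error term; medium; adapt `helper65/RS/BK2.lean`: `BK2_factor`, `BK2_norm`). `t = r v`, `|t| ≥ r^(3/4)`, `σ = s - r`; `(x - t)² + e^(2τ) = t² (1 + q)`, `q = -2x/t + (x² + e^(2τ))/t²`, `|q| ≤ 1/(2|t|) + 2/t² ≤ 1/|t|`.
`r |bI(rv)| = |v|⁻¹ |∬ C e^(-iστ) (1 + q)^(-1/2) e^(i s log (1 + q))|`, and `|(1 + q)^(-1/2) - 1| ≤ |q|`, `s log (1 + q) = -2x/v + O(|σ|/(r|v|)) + O(1/(r v²))` (`|log(1+q) - q| ≤ q²`, `|s| ≤ 2r`): the difference of the integrands is at most `8 M (r^(-3/4) + r^(-1/2) + r^(-1/2))` on the box of area `1/4`; times `|v|⁻¹ ≤ r^(1/4)`. -/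
def QB2_stmt : Prop := ∃ K : ℝ, 1 ≤ K ∧ ∀ (C : ℝ → ℝ → ℂ) (M : ℝ), CBM M C → ∀ r s v : ℝ, K ≤ r → |s - r| ≤ r ^ (1 / 4 : ℝ) → r ^ (-(1 / 4) : ℝ) ≤ |v| → |v| ≤ r ^ (1 / 4 : ℝ) →
  |r * ‖bI C r s (r * v)‖ - |v|⁻¹ * ‖bF C (2 / v) (s - r)‖| ≤ K * M * r ^ (-(1 / 4) : ℝ)

/-- **Row QBT** (the limit function; short-medium; pure). `bF (pr β α) k σ = hF β k * hF α σ` (see `helper65/RS/BK4.lean`), `|hF α σ| ≤ M/2`, `|hF β k| ≤ min (M/2, M/(2|k|))` (one integration by parts). So `|v|⁻¹ |bF (2/v)| ≤ M²/4 min (|v|⁻¹, 1)`, and `min(1, v⁻²) ≤ 2/(1 + v²)`. Integrability: continuous for `v ≠ 0`, dominated. -/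
def QBT_stmt : Prop := ∃ K : ℝ, 1 ≤ K ∧ ∀ (β α : ℝ → ℝ) (M : ℝ), SBM 1 M β → SBM 1 M α → CBM (M ^ 2) (pr β α) ∧ ∀ σ : ℝ, Integrable (fun v : ℝ => (|v|⁻¹ * ‖bF (pr β α) (2 / v) σ‖) ^ 2) ∧
  (∀ v : ℝ, v ≠ 0 → (|v|⁻¹ * ‖bF (pr β α) (2 / v) σ‖) ^ 2 ≤ K * M ^ 4 * (1 + v ^ 2)⁻¹) ∧ (∀ σ : ℝ, ‖hF α σ‖ ≤ K * M) ∧ ∫ x, β x ^ 2 ≤ K * M ^ 2

/-- **Row QB5** (short-medium; from QB2, QB3, QBT, RS.BK4). `G_r(v) = r |bI(rv)|`, `G(v) = |v|⁻¹ |bF (2/v)|`; `π (r bk - |hF α σ|² ∫ β²) = ∫ (G_r² - G²)` (QB3, BK4). On `|v| ≤ r^(-1/4)` and on `|v| ≥ r^(1/4)`: both squares are `≤ K M⁴ (1 + v²)⁻¹`, integral `≤ 2 K M⁴ r^(-1/4)`. Between: `|G_r² - G²| ≤ |G_r - G| (G_r + G) ≤ K M² r^(-1/4) · 2 (K M⁴)^(1/2)` (QB2 with `M²`)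
`(1 + v²)^(-1/2)`, and `∫_(|v| ≤ r^(1/4)) (1 + v²)^(-1/2) ≤ (2 r^(1/4) π)^(1/2)` (Cauchy-Schwarz). `|σ| ≤ r^(1/4) ≤ r/100` for `r ≥ K`. -/
def QB5_stmt : Prop := ∃ K : ℝ, 1 ≤ K ∧ ∀ (β α : ℝ → ℝ) (M : ℝ), SBM 1 M β → SBM 1 M α → ∀ r s : ℝ, K ≤ r → |s - r| ≤ r ^ (1 / 4 : ℝ) →
  |r * bk (pr β α) r s - ‖hF α (s - r)‖ ^ 2 * ∫ x : ℝ, β x ^ 2| ≤ K * M ^ 4 * r ^ (-(1 / 8) : ℝ)

/-! ## 2. Frame bounds -/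

/-- **Row QTR** (short; adapt `helper9/RS/TRV.lean`). `|F_c(g)|² ≤ (∫ |c|² y dz) ∫_(box) |φ(gz)|² dz`; integrate over `dG F` (GR0 / GYN). -/
def QTR_stmt : Prop := ∃ K : ℝ, 1 ≤ K ∧ ∀ (c : ℍ → ℂ) (M : ℝ), TB (1 / 4) c → (∀ z, ‖c z‖ ≤ M) → ∀ (Γ : Subgroup SL(2, ℝ)) (F : Set ℍ) (r : ℝ) (φ : ℍ → ℂ), QU.SurfaceGroup Γ → QU.NiceDom Γ F → InvC Γ φ → qn F c r φ ≤ K * M ^ 2 * nn F φ

/-- **Row QLP** (derivatives of products; short-medium; pure). `dY c = y ∂_y c`, `lap c = -y² (c_xx + c_yy)`; with `c = β(x) α(log y)`: `y c_y = β α'`, `y² c_yy = β (α'' - α')`. Third part: `SB` is stable; bounds: Leibniz for `e^(2τ) α`, `e^(1/2) ≤ 2` on the support. -/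
def QLP_stmt : Prop := (∀ β α : ℝ → ℝ, SB (1 / 4) β → SB (1 / 4) α → QU.dY (pc β α) = pc β (deriv α) ∧
    QU.lap (pc β α) = fun z => -(pc (deriv (deriv β)) (fun τ => Real.exp (2 * τ) * α τ) z + pc β (fun τ => deriv (deriv α) τ - deriv α τ) z)) ∧
  ∃ K : ℝ, 1 ≤ K ∧ ∀ (J : ℕ) (M : ℝ) (β : ℝ → ℝ), J ≤ 4 → SBM J M β → 0 ≤ M ∧ SBM J (K * M) (fun τ => Real.exp (2 * τ) * β τ) ∧ (1 ≤ J → SBM (J - 1) M (deriv β)) ∧ (2 ≤ J → SBM (J - 2) M (deriv (deriv β)) ∧ SBM (J - 2) (2 * M) (fun τ => deriv (deriv β) τ - deriv β τ))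

/-- **Row QEF** (eigenvalues not near `r`; medium; from QB3, QTR, QLP, QBT, RS.FL0, FL4, GR2, CV1; adapt `helper92/RS/EF1.lean`). (mid) `R0 < |s - r| ≤ r/100`: `|1/4 + r² - lam| = |r² - s²| ≥ R0 r`, FL4: `R0 r ‖F_c‖ ≤ (1 + 2r) ‖F_(dY c)‖ + ‖F_(lap c)‖`, `‖F_c'‖² = bk nn ≤ K M⁴/r nn` (QB3 with `M²`) for the products `c' = pc β' α'` which occur
(QLP; `‖a + b‖² ≤ 2‖a‖² + 2‖b‖²`). (far) `|1/4 + r² - lam| ≥ r²/200`: FL4 twice and QTR, `‖F_c‖² ≤ K M⁴/r⁴ nn`, and `r⁴ ≥ R0² r`. -/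
def QEF_stmt : Prop := ∃ K : ℝ, 1 ≤ K ∧ ∀ (β α : ℝ → ℝ) (M : ℝ), SBM 4 M β → SBM 4 M α → ∀ (Γ : Subgroup SL(2, ℝ)) (F : Set ℍ) (r R0 lam : ℝ) (φ : ℍ → ℂ), QU.SurfaceGroup Γ → QU.NiceDom Γ F → 1 ≤ R0 → 100 * R0 ≤ r → EigL Γ lam φ →
  (∀ s : ℝ, 0 ≤ s → lam = 1 / 4 + s ^ 2 → R0 < |s - r|) → qn F (pc β α) r φ ≤ K * M ^ 4 / (R0 ^ 2 * r) * nn F φ

/-- **Row QFR** (frame bounds; short-medium; from QB5, QEF, QBT, RS.NR5, GR2, CV1, ALH; adapt `helper43/MS/NM3.lean`). `R0 = r^(1/8)`. First part: NR5; `‖hF α‖ ≤ ∫ α = 1` (ALH); near: `r q ≤ ∫ β² + K M⁴ r^(-1/8)`; far: `r q ≤ K M⁴/R0² = K M⁴ r^(-1/4)`. Second part: GR2, QB5 with `s = r`, `hF α 0 = ∫ α`. -/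
def QFR_stmt : Prop := ∃ K : ℝ, 1 ≤ K ∧ ∀ (β α : ℝ → ℝ) (M : ℝ), SBM 4 M β → SBM 4 M α → ∀ (Γ : Subgroup SL(2, ℝ)) (F : Set ℍ) (r : ℝ), QU.SurfaceGroup Γ → QU.NiceDom Γ F → K ≤ r →
  (BA (1 / 4) α → ∀ u : ℍ → ℂ, InvC Γ u → r * qn F (pc β α) r u ≤ ((∫ x, β x ^ 2) + K * M ^ 4 * r ^ (-(1 / 8) : ℝ)) * nn F u) ∧
  ∀ φ : ℍ → ℂ, EigL Γ (1 / 4 + r ^ 2) φ → |r * qn F (pc β α) r φ - (∫ x, α x) ^ 2 * (∫ x, β x ^ 2) * nn F φ| ≤ K * M ^ 4 * r ^ (-(1 / 8) : ℝ) * nn F φ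

/-! ## 3. Change of the frame -/

/-- **Row QE1** (change of `α`; short; from QFR, RS.CV1, FL0; adapt `helper61/MS/EQ1.lean`). The difference is `pf β (α1 - α2)`, `∫ (α1 - α2) = 0`, `SBM 4 (2M) (α1 - α2)`. -/
def QE1_stmt : Prop := ∃ K : ℝ, 1 ≤ K ∧ ∀ (β α1 α2 : ℝ → ℝ) (M : ℝ), SBM 4 M β → SBM 4 M α1 → SBM 4 M α2 → ∫ x, α1 x = ∫ x, α2 x → ∀ (Γ : Subgroup SL(2, ℝ)) (F : Set ℍ) (r : ℝ) (φ : ℍ → ℂ), QU.SurfaceGroup Γ → QU.NiceDom Γ F → K ≤ r →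
  EigL Γ (1 / 4 + r ^ 2) φ → r * iR F (fun g => ‖pf β α1 r φ g - pf β α2 r φ g‖ ^ 2) ≤ K * M ^ 4 * r ^ (-(1 / 8) : ℝ) * nn F φ

/-- **Row QST** (squeezed profiles; short; pure; from MS.STB). `st (-T) β x = e^(T/2) β(e^T x)`: the `j`-th derivative is `e^((j+1/2)T) β^(j)(e^T x)`, `j ≤ 4`. Translates of `α`: support in `[-1/8 - δ, 1/8 + δ]`. -/
def QST_stmt : Prop := (∀ (β : ℝ → ℝ) (M T : ℝ), SBM 4 M β → 0 ≤ T → SBM 4 (M * Real.exp (5 * T)) (st (-T) β) ∧ ∫ x, st (-T) β x ^ 2 = ∫ x, β x ^ 2) ∧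
  (∀ (α : ℝ → ℝ) (M δ : ℝ), SBM 4 M α → BA (1 / 8) α → |δ| ≤ 1 / 8 → SBM 4 M (fun τ => α (τ - δ)) ∧ BA (1 / 4) (fun τ => α (τ - δ))) ∧
  ∀ (J : ℕ) (β : ℝ → ℝ), SB (1 / 4) β → ∃ M : ℝ, 1 ≤ M ∧ SBM J M β

/-- **Row QE3** (stretching; medium; from QE1, QST, MS.EQ2, MS.STB, RS.GFD, GWB; adapt `helper24/MS/EQ3.lean`). `n = ⌈8T⌉ + 1` steps of length `δ = T/n ≤ 1/8`; every step costs `(K M⁴ e^(20T) r^(-1/8) nn)^(1/2)` (QE1 for `st (-(T - jδ)) β`, `SBM 4 (M e^(5T))`), triangle inequality in `L²`. -/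
def QE3_stmt : Prop := ∃ K : ℝ, 1 ≤ K ∧ ∀ (β α1 α2 : ℝ → ℝ) (M T : ℝ), SBM 4 M β → SBM 4 M α1 → SBM 4 M α2 → BB (1 / 4) β → BA (1 / 8) α1 → BA (1 / 8) α2 → 0 ≤ T → ∀ (Γ : Subgroup SL(2, ℝ)) (F : Set ℍ) (r : ℝ) (φ : ℍ → ℂ), QU.SurfaceGroup Γ → QU.NiceDom Γ F → K ≤ r →
  EigL Γ (1 / 4 + r ^ 2) φ → r * iR F (fun g => (‖pf (st (-T) β) α1 r φ (g * aM T)‖ - ‖pf β α2 r φ g‖) ^ 2) ≤ K * M ^ 4 * (1 + T) ^ 2 * Real.exp (20 * T) * r ^ (-(1 / 8) : ℝ) * nn F φ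

/-- **Row QE4** (short-medium; from QE3, QFR, QST, RS.GFD, GWB; adapt `helper41/MS/EQ4.lean`). `E = K M⁴ e^(20T) r^(-1/8) ≤ 1` by the hypothesis (with `K` larger than that of QFR); `|x² - y²| = |x - y| (x + y)`, Cauchy-Schwarz, QE3, `r iR F (x + y)² ≤ 8 nn`. -/
def QE4_stmt : Prop := ∃ K : ℝ, 1 ≤ K ∧ ∀ (β α1 α2 : ℝ → ℝ) (M T : ℝ), SBM 4 M β → SBM 4 M α1 → SBM 4 M α2 → BB (1 / 4) β → BA (1 / 8) α1 → BA (1 / 8) α2 → 0 ≤ T → ∀ (Γ : Subgroup SL(2, ℝ)) (F : Set ℍ) (r : ℝ) (φ : ℍ → ℂ), QU.SurfaceGroup Γ → QU.NiceDom Γ F → K ≤ r →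
  K * M ^ 4 * Real.exp (20 * T) ≤ r ^ (1 / 8 : ℝ) → EigL Γ (1 / 4 + r ^ 2) φ → ∀ Ψ : SL(2, ℝ) → ℝ, Measurable Ψ → (∀ g, |Ψ g| ≤ 1) → (∀ (γ : Γ) g, Ψ ((γ : SL(2, ℝ)) * g) = Ψ g) →
    |r * iR F (fun g => Ψ (g * aM (-T)) * ‖pf (st (-T) β) α1 r φ g‖ ^ 2) - r * iR F (fun g => Ψ g * ‖pf β α2 r φ g‖ ^ 2)| ≤ K * M ^ 2 * (1 + T) * Real.exp (10 * T) * r ^ (-(1 / 16) : ℝ) * nn F φ

/-! ## 4. The interface forms -/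

/-- **Row QFA** (E1; short; from QFR, QST). `κ = 1/400`: `M⁴ e^(20T) r^(-1/8) ≤ M⁴ r^(1/20 - 1/8) ≤ r^(-κ)/K` for `r ≥ K'`. -/
def QFA_stmt : Prop := ∀ M : ℝ, ∃ K κ : ℝ, 1 ≤ K ∧ 0 < κ ∧ κ ≤ 1 ∧ ∀ β α : ℝ → ℝ, SBM 4 M β → SBM 4 M α → BB (1 / 4) β → BA (1 / 4) α → ∀ (Γ : Subgroup SL(2, ℝ)) (F : Set ℍ) (r T : ℝ), QU.SurfaceGroup Γ → QU.NiceDom Γ F → K ≤ r → 0 ≤ T → T ≤ κ * Real.log r →
  (∀ u : ℍ → ℂ, InvC Γ u → r * qn F (pc (st (-T) β) α) r u ≤ (1 + r ^ (-κ)) * nn F u) ∧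
  ∀ φ : ℍ → ℂ, EigL Γ (1 / 4 + r ^ 2) φ → |r * qn F (pc (st (-T) β) α) r φ - nn F φ| ≤ r ^ (-κ) * nn F φ

/-- **Row QFB** (E2; short; from QE1, QE3, QE4, QST). -/
def QFB_stmt : Prop := ∀ M : ℝ, ∃ K κ : ℝ, 1 ≤ K ∧ 0 < κ ∧ κ ≤ 1 ∧ ∀ β α1 α2 : ℝ → ℝ, SBM 4 M β → SBM 4 M α1 → SBM 4 M α2 → BB (1 / 4) β → ∀ (Γ : Subgroup SL(2, ℝ)) (F : Set ℍ) (r T : ℝ) (φ : ℍ → ℂ), QU.SurfaceGroup Γ → QU.NiceDom Γ F → K ≤ r → 0 ≤ T → T ≤ κ * Real.log r → EigL Γ (1 / 4 + r ^ 2) φ →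
  (∫ x, α1 x = ∫ x, α2 x → r * iR F (fun g => ‖pf (st (-T) β) α1 r φ g - pf (st (-T) β) α2 r φ g‖ ^ 2) ≤ r ^ (-κ) * nn F φ) ∧
  (BA (1 / 8) α1 → BA (1 / 8) α2 → r * iR F (fun g => (‖pf (st (-T) β) α1 r φ (g * aM T)‖ - ‖pf β α2 r φ g‖) ^ 2) ≤ r ^ (-κ) * nn F φ ∧
    ∀ Ψ : SL(2, ℝ) → ℝ, Measurable Ψ → (∀ g, |Ψ g| ≤ 1) → (∀ (γ : Γ) g, Ψ ((γ : SL(2, ℝ)) * g) = Ψ g) →
      |r * iR F (fun g => Ψ (g * aM (-T)) * ‖pf (st (-T) β) α1 r φ g‖ ^ 2) - r * iR F (fun g => Ψ g * ‖pf β α2 r φ g‖ ^ 2)| ≤ r ^ (-κ) * nn F φ)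

end

end Pool.Agent.T1
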